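import Mathlib

/-!
The orbits of `x ↦ x + √x`.
-/

set_option autoImplicit false

open Finset

namespace Pool.Agent.R529.Orb

/-- the orbit of `x` under `t ↦ t + √t` -/
noncomputable def a (x : ℝ) (k : ℕ) : ℝ := (fun t : ℝ => t + √t)^[k] x

/-- the square root of a member of the orbit -/
noncomputable def y (x : ℝ) (k : ℕ) : ℝ := √(a x k)

/-- the defect of the steps of the square roots -/
noncomputable def g (x : ℝ) (k : ℕ) : ℝ := 1 / 2 - (y x (k + 1) - y x k)

theorem a_zero (x : ℝ) : a x 0 = x := rfl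

theorem a_succ (x : ℝ) (k : ℕ) : a x (k + 1) = a x k + y x k := by
  unfold y a
  rw [Function.iterate_succ_apply']

theorem a_pos {x : ℝ} (hx : 1 ≤ x) (k : ℕ) : 1 ≤ a x k := by
  induction k with
  | zero => exact hx
  | succ k ih =>
    rw [a_succ]
    have : 0 ≤ y x k := Real.sqrt_nonneg _
    linarith

theorem y_one {x : ℝ} (hx : 1 ≤ x) (k : ℕ) : 1 ≤ y x k := by
  unfold y
  exact Real.one_le_sqrt.2 (a_pos hx k)

theorem y_sq {x : ℝ} (hx : 1 ≤ x) (k : ℕ) : y x k ^ 2 = a x k :=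
  Real.sq_sqrt (by linarith [a_pos hx k])

theorem y_rec {x : ℝ} (hx : 1 ≤ x) (k : ℕ) : y x (k + 1) ^ 2 = y x k ^ 2 + y x k := by
  rw [y_sq hx, y_sq hx, a_succ]

theorem y_up {x : ℝ} (hx : 1 ≤ x) (k : ℕ) : y x (k + 1) ≤ y x k + 1 / 2 := by
  have h1 := y_rec hx k
  have h2 := y_one hx k
  have h3 := y_one hx (k + 1)
  nlinarith only [h1, h2, h3]

theorem y_low {x : ℝ} (hx : 1 ≤ x) (k : ℕ) : y x k + 1 / 3 ≤ y x (k + 1) := by
  have h1 := y_rec hx k
  have h2 := y_one hx k
  have h3 := y_one hx (k + 1)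
  nlinarith only [h1, h2, h3]

theorem y_le {x : ℝ} (hx : 1 ≤ x) (k : ℕ) : y x k ≤ y x 0 + k / 2 := by
  induction k with
  | zero => simp
  | succ k ih =>
    have := y_up hx k
    push_cast
    linarith only [this, ih]

theorem y_ge {x : ℝ} (hx : 1 ≤ x) (k : ℕ) : y x 0 ≤ y x k := by
  induction k with
  | zero => exact le_rfl
  | succ k ih =>
    have := y_low hx k
    linarith only [this, ih]

theorem g_eq {x : ℝ} (hx : 1 ≤ x) (k : ℕ) :
    2 * g x k * (y x (k + 1) + y x k) = y x (k + 1) - y x k := by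
  have h1 := y_rec hx k
  unfold g
  linear_combination (-2) * h1

theorem g_pos {x : ℝ} (hx : 1 ≤ x) (k : ℕ) : 0 ≤ g x k := by
  have := y_up hx k
  unfold g
  linarith only [this]

theorem g_up {x : ℝ} (hx : 1 ≤ x) (k : ℕ) : g x k ≤ 1 / (8 * y x 0) := by
  have h1 := g_eq hx k
  have h2 := y_up hx k
  have h3 := y_low hx k
  have h4 := y_ge hx k
  have h5 := y_one hx 0
  have h6 := g_pos hx k
  rw [le_div_iff₀ (by linarith)]
  have h7 : g x k * (4 * y x 0) ≤ 2 * g x k * (y x (k + 1) + y x k) := by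
    have h8 : 4 * y x 0 ≤ 2 * (y x (k + 1) + y x k) := by linarith only [h3, h4]
    calc g x k * (4 * y x 0) ≤ g x k * (2 * (y x (k + 1) + y x k)) :=
          mul_le_mul_of_nonneg_left h8 h6
      _ = _ := by ring
  linarith only [h1, h2, h7]

theorem g_low {x : ℝ} (hx : 1 ≤ x) (k : ℕ) (hk : y x k ≤ 2 * y x 0) : 1 / (30 * y x 0) ≤ g x k := by
  have h1 := g_eq hx k
  have h2 := y_up hx k
  have h3 := y_low hx k
  have h5 := y_one hx 0
  have h6 := g_pos hx k
  rw [div_le_iff₀ (by linarith)]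
  have h7 : 2 * g x k * (y x (k + 1) + y x k) ≤ g x k * (10 * y x 0) := by
    have h8 : 2 * (y x (k + 1) + y x k) ≤ 10 * y x 0 := by linarith only [h2, hk, h5]
    calc 2 * g x k * (y x (k + 1) + y x k) = g x k * (2 * (y x (k + 1) + y x k)) := by ring
      _ ≤ _ := mul_le_mul_of_nonneg_left h8 h6
  linarith only [h1, h3, h7]

theorem g_anti {x : ℝ} (hx : 1 ≤ x) (k : ℕ) : g x (k + 1) ≤ g x k := by
  by_contra hcon
  rw [not_le] at hcon
  have h1 := y_rec hx k
  have h2 := y_rec hx (k + 1)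
  have h3 := y_low hx k
  have h4 := y_low hx (k + 1)
  have h5 := y_one hx k
  have h6 := g_pos hx k
  set s := y x (k + 1) - y x k with hs
  set s' := y x (k + 1 + 1) - y x (k + 1) with hs'
  have g1 : g x k = 1 / 2 - s := rfl
  have g2 : g x (k + 1) = 1 / 2 - s' := rfl
  have e1 : y x k * (1 - 2 * s) = s ^ 2 := by
    rw [hs]; linear_combination (-1) * h1
  have e2 : y x (k + 1) * (1 - 2 * s') = s' ^ 2 := by
    rw [hs']; linear_combination (-1) * h2
  have h7 : s' < s := by linarith only [g1, g2, hcon]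
  have h8 : 0 < s' := by linarith only [h4, hs']
  have h9 : 0 ≤ 1 - 2 * s := by linarith only [h6, g1]
  have h10 : s' ^ 2 < s ^ 2 := by nlinarith only [h7, h8]
  have h11 : y x k * (1 - 2 * s) ≤ y x (k + 1) * (1 - 2 * s') := by
    apply mul_le_mul (by linarith only [h3]) (by linarith only [h7]) h9 (by linarith only [h3, h5])
  linarith only [e1, e2, h10, h11]

theorem y_diff (x : ℝ) (n r : ℕ) : y x (n + r) - y x n = r / 2 - ∑ i ∈ range r, g x (n + i) := by
  induction r with
  | zero => simp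
  | succ r ih =>
    rw [Finset.sum_range_succ]
    have h1 : g x (n + r) = 1 / 2 - (y x (n + r + 1) - y x (n + r)) := rfl
    rw [h1, ← add_assoc]
    push_cast
    linear_combination ih

end Pool.Agent.R529.Orb
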