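import Pool.Agent.R529.Orb.Main

/-!
Record gaps at the members of every orbit of `x ↦ x + √x`.
-/

set_option autoImplicit false

open Finset Filter
open Pool.Agent.H469R2.NK (e norm_e)
open Pool.Agent.W147.PS (ff ev_pow)
open Pool.Agent.Y565.RG (crit_count)

namespace Pool.Agent.R529.Orb

theorem a_ge {x : ℝ} (hx : 1 ≤ x) (k : ℕ) : x ≤ a x k := by
  induction k with
  | zero => exact le_rfl
  | succ k ih =>
    rw [a_succ]
    have := y_one hx k
    linarith

theorem main (ε : ℝ) (hε : 0 < ε) (hε1 : ε ≤ 1 / 8) : ∃ κ : ℝ, 0 < κ ∧ ∃ X₀ : ℝ, ∀ x : ℝ, X₀ ≤ x →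
    ∃ G : Finset ℕ, x ^ (1 / 4 : ℝ) ≤ (G.card : ℝ) ∧ ∀ k ∈ G, (k : ℝ) < x ^ (1 / 4 + ε) ∧
      ∀ q : ℕ, q.Prime → κ * ff x < |(q : ℝ) - a x k| := by
  set η : ℝ := ε / 16 with hη
  obtain ⟨κ, hκ, hcrit⟩ := crit_count η (by positivity) (by rw [hη]; linarith)
  refine ⟨κ, hκ, ?_⟩
  apply eventually_atTop.mp
  have hlog : ∀ᶠ x : ℝ in atTop, 1 + Real.log x ≤ x ^ η := by
    have h1 := (isLittleO_log_rpow_atTop (show (0 : ℝ) < η by positivity)).def
      (show (0 : ℝ) < 1 / 2 by norm_num)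
    filter_upwards [h1, eventually_ge_atTop (1 : ℝ), (tendsto_rpow_atTop (show (0 : ℝ) < η by positivity)).eventually_ge_atTop 2] with x h2 h3 h4
    rw [Real.norm_eq_abs, abs_of_nonneg (Real.log_nonneg h3), Real.norm_eq_abs,
      abs_of_nonneg (Real.rpow_nonneg (by linarith) _)] at h2
    linarith
  filter_upwards [hcrit, hlog, eventually_ge_atTop (1 : ℝ),
    ev_pow (1 / 2 + 2 * η) (1 / 2 + 24 * η) (242 * 256) (by linarith [show 0 < η by positivity]),
    ev_pow 0 (12 * η) 4 (by positivity), ev_pow 0 (1 / 4 + ε) 2 (by positivity)] with x hcr hl hx1 hp1 hp2 hp3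
  have hx0 : 0 < x := by linarith
  have hη0 : 0 < η := by positivity
  have hεη : ε = 16 * η := by rw [hη]; ring
  rw [Real.rpow_zero, mul_one] at hp2 hp3
  set L : ℕ := ⌊x ^ (1 / 4 + ε)⌋₊ with hL
  have hLup : (L : ℝ) ≤ x ^ (1 / 4 + ε) := Nat.floor_le (by positivity)
  have hLlow : x ^ (1 / 4 + ε) / 2 ≤ L := by
    have := Nat.lt_floor_add_one (x ^ (1 / 4 + ε))
    rw [← hL] at this
    linarith
  have hL1 : (1 : ℝ) ≤ L := by linarith
  have hL1' : 1 ≤ L := by exact_mod_cast hL1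
  have hy0 : y x 0 = x ^ (1 / 2 : ℝ) := by
    unfold y
    rw [a_zero, Real.sqrt_eq_rpow]
  have mono : ∀ s t : ℝ, s ≤ t → x ^ s ≤ x ^ t := fun s t h => Real.rpow_le_rpow_of_exponent_le hx1 h
  obtain ⟨G, hG1, hG2, hG3⟩ := hcr ℕ (range L) (a x) (by
    rw [Finset.nonempty_range_iff]; omega) (by
      intro i _
      calc x ^ η ≤ x ^ (1 : ℝ) := mono _ _ (by rw [hη]; linarith)
        _ = x := Real.rpow_one x
        _ ≤ _ := a_ge hx1 i) (by
      intro q h hq hqX hh hhX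
      have hq1 : (1 : ℝ) ≤ q := by exact_mod_cast hq
      have b1 : (L : ℝ) ≤ y x 0 := by
        rw [hy0]
        exact hLup.trans (mono _ _ (by linarith))
      have b2 : (h : ℝ) * L ≤ 2 * y x 0 := by
        rw [hy0]
        calc (h : ℝ) * L ≤ x ^ (4 * η) * x ^ (1 / 4 + ε) := by gcongr
          _ = x ^ (4 * η + (1 / 4 + ε)) := by rw [← Real.rpow_add hx0]
          _ ≤ x ^ (1 / 2 : ℝ) := mono _ _ (by rw [hεη]; rw [hεη] at hε1; linarith)
          _ ≤ _ := by
              have : 0 ≤ x ^ (1 / 2 : ℝ) := by positivity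
              linarith
      have b3 := sum_sq hx1 q h L hq hh hL1' b1 b2
      have b4 : 2 * (L : ℝ) + 240 * y x 0 * q * (1 + Real.log L) ≤ (L * x ^ (-(4 * η)) / 8) ^ 2 := by
        have c1 : Real.log L ≤ Real.log x := by
          apply Real.log_le_log (by linarith)
          calc (L : ℝ) ≤ x ^ (1 / 4 + ε) := hLup
            _ ≤ x ^ (1 : ℝ) := mono _ _ (by linarith)
            _ = x := Real.rpow_one x
        have c2 : 1 + Real.log L ≤ x ^ η := by linarith
        have c0 : 0 ≤ 1 + Real.log L := by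
          have := Real.log_nonneg hL1
          linarith
        have c3 : 240 * y x 0 * q * (1 + Real.log L) ≤ 240 * x ^ (1 / 2 + 2 * η) := by
          rw [hy0]
          calc 240 * x ^ (1 / 2 : ℝ) * q * (1 + Real.log L) ≤ 240 * x ^ (1 / 2 : ℝ) * x ^ η * x ^ η := by
                gcongr
            _ = 240 * (x ^ (1 / 2 : ℝ) * x ^ η * x ^ η) := by ring
            _ = 240 * x ^ (1 / 2 + η + η) := by rw [← Real.rpow_add hx0, ← Real.rpow_add hx0]
            _ = _ := by congr 2; ring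
        have c4 : 2 * (L : ℝ) ≤ 2 * x ^ (1 / 2 + 2 * η) := by
          have : (L : ℝ) ≤ x ^ (1 / 2 + 2 * η) := hLup.trans (mono _ _ (by linarith))
          linarith
        have c5 : x ^ (1 / 2 + 24 * η) / 256 ≤ (L * x ^ (-(4 * η)) / 8) ^ 2 := by
          have d1 : (x ^ (1 / 4 + ε) / 2) * x ^ (-(4 * η)) / 8 ≤ L * x ^ (-(4 * η)) / 8 := by gcongr
          have d2 : (x ^ (1 / 4 + ε) / 2) * x ^ (-(4 * η)) / 8 = x ^ (1 / 4 + 12 * η) / 16 := by
            have : x ^ (1 / 4 + ε) * x ^ (-(4 * η)) = x ^ (1 / 4 + 12 * η) := by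
              rw [← Real.rpow_add hx0]; congr 1; rw [hεη]; ring
            rw [← this]; ring
          rw [d2] at d1
          have d3 : (x ^ (1 / 4 + 12 * η) / 16) ^ 2 = x ^ (1 / 2 + 24 * η) / 256 := by
            rw [div_pow, ← Real.rpow_natCast, ← Real.rpow_mul hx0.le]
            norm_num
            congr 1
            ring
          rw [← d3]
          exact pow_le_pow_left₀ (by positivity) d1 2
        calc 2 * (L : ℝ) + 240 * y x 0 * q * (1 + Real.log L) ≤ 242 * x ^ (1 / 2 + 2 * η) := by linarith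
          _ ≤ x ^ (1 / 2 + 24 * η) / 256 := by
              rw [le_div_iff₀ (by norm_num)]
              linarith
          _ ≤ _ := c5
      rw [Finset.card_range]
      exact le_of_sq_le_sq (b3.trans b4) (by positivity))
  refine ⟨G, ?_, fun k hk => ⟨?_, hG3 k hk⟩⟩
  · rw [Finset.card_range] at hG2
    refine le_trans ?_ hG2
    have d1 : x ^ (1 / 4 + ε) * x ^ (-(4 * η)) = x ^ (1 / 4 : ℝ) * x ^ (12 * η) := by
      rw [← Real.rpow_add hx0, ← Real.rpow_add hx0]; congr 1; rw [hεη]; ring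
    calc x ^ (1 / 4 : ℝ) = x ^ (1 / 4 : ℝ) * 4 / 4 := by ring
      _ ≤ x ^ (1 / 4 : ℝ) * x ^ (12 * η) / 4 := by gcongr
      _ = (x ^ (1 / 4 + ε) / 2) * x ^ (-(4 * η)) / 2 := by rw [← d1]; ring
      _ ≤ _ := by gcongr
  · have h1 := Finset.mem_range.1 (hG1 hk)
    have h2 : (k : ℝ) < L := by exact_mod_cast h1
    linarith

end Pool.Agent.R529.Orb
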