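import Pool.Agent.R529.Orb.Basic
import Pool.Agent.Y565.RG.Count

/-!
Exponential sums along the orbits of `x ↦ x + √x`, and record gaps.
-/

set_option autoImplicit false

open Finset Filter
open Pool.Agent.H469R2.NK (e norm_e e_add conj_e e_nat vdcH kusmin_landau_anti harm_le)
open Pool.Agent.W147.PS (ff ev_pow)

namespace Pool.Agent.R529.Orb

theorem ceil_nat (A q : ℕ) (hq : 1 ≤ q) : ∃ N : ℕ, A ≤ N * (2 * q) ∧ N * (2 * q) + 1 ≤ A + 2 * q := by
  refine ⟨(A + 2 * q - 1) / (2 * q), ?_, ?_⟩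
  · have h1 := Nat.div_add_mod (A + 2 * q - 1) (2 * q)
    have h2 := Nat.mod_lt (A + 2 * q - 1) (show 0 < 2 * q by omega)
    have h3 : (A + 2 * q - 1) / (2 * q) * (2 * q) = 2 * q * ((A + 2 * q - 1) / (2 * q)) := by ring
    omega
  · have h1 := Nat.div_mul_le_self (A + 2 * q - 1) (2 * q)
    omega

/-- the differenced sums -/
theorem inner {x : ℝ} (hx : 1 ≤ x) (q h r L : ℕ) (hq : 1 ≤ q) (hh : 1 ≤ h) (hr : 1 ≤ r)
    (hL : (L : ℝ) + r ≤ y x 0) (hhr : (h : ℝ) * r ≤ 2 * y x 0) :
    ‖∑ n ∈ range L, e ((h : ℝ) / q * (a x (n + r) - a x n))‖ ≤ 60 * y x 0 * q / (h * r) := by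
  obtain ⟨N, hN1, hN2⟩ := ceil_nat (h * r) q hq
  have hq0 : (1 : ℝ) ≤ q := by exact_mod_cast hq
  have hh0 : (1 : ℝ) ≤ h := by exact_mod_cast hh
  have hr0 : (1 : ℝ) ≤ r := by exact_mod_cast hr
  have hN1' : (h : ℝ) * r ≤ N * (2 * q) := by exact_mod_cast hN1
  have hN2' : (N : ℝ) * (2 * q) + 1 ≤ h * r + 2 * q := by exact_mod_cast hN2
  have hy0 := y_one hx 0
  set θ : ℝ := (h : ℝ) / q with hθ
  have hθ0 : 0 < θ := by positivity
  have hθq : θ * q = h := by rw [hθ]; field_simp
  set ψ : ℕ → ℝ := fun n => -(θ * (a x (n + r) - a x n)) + ((N * n : ℕ) : ℝ) with hψ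
  have hinc : ∀ n, ψ (n + 1) - ψ n = (N - θ * r / 2) + θ * ∑ i ∈ range r, g x (n + i) := by
    intro n
    have h1 := y_diff x n r
    have h2 := a_succ x (n + r)
    have h3 := a_succ x n
    rw [hψ]
    simp only
    rw [show n + 1 + r = n + r + 1 by ring, h2, h3]
    push_cast
    linear_combination (-θ) * h1
  -- the bounds
  have hlo : ∀ n < L, θ * r / (30 * y x 0) ≤ θ * ∑ i ∈ range r, g x (n + i) := by
    intro n hn
    have h1 : (r : ℝ) * (1 / (30 * y x 0)) ≤ ∑ i ∈ range r, g x (n + i) := by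
      rw [← nsmul_eq_mul, ← Finset.card_range r, ← Finset.sum_const]
      rw [Finset.card_range]
      apply Finset.sum_le_sum
      intro i hi
      apply g_low hx
      have h2 := y_le hx (n + i)
      have h3 : ((n + i : ℕ) : ℝ) ≤ L + r := by
        have := Finset.mem_range.1 hi
        exact_mod_cast (by omega : n + i ≤ L + r)
      linarith
    calc θ * r / (30 * y x 0) = θ * (r * (1 / (30 * y x 0))) := by ring
      _ ≤ _ := mul_le_mul_of_nonneg_left h1 hθ0.le
  have hup : ∀ n, θ * ∑ i ∈ range r, g x (n + i) ≤ 1 / (4 * q) := by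
    intro n
    have h1 : ∑ i ∈ range r, g x (n + i) ≤ (r : ℝ) * (1 / (8 * y x 0)) := by
      rw [← nsmul_eq_mul, ← Finset.card_range r, ← Finset.sum_const]
      rw [Finset.card_range]
      exact Finset.sum_le_sum fun i _ => g_up hx _
    calc θ * ∑ i ∈ range r, g x (n + i) ≤ θ * (r * (1 / (8 * y x 0))) :=
          mul_le_mul_of_nonneg_left h1 hθ0.le
      _ = (h * r) * (1 / (8 * y x 0 * q)) := by
          rw [hθ]; field_simp
      _ ≤ (2 * y x 0) * (1 / (8 * y x 0 * q)) := mul_le_mul_of_nonneg_right hhr (by positivity)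
      _ = 1 / (4 * q) := by field_simp; ring
  have hβ0 : 0 ≤ (N : ℝ) - θ * r / 2 := by
    have h1 : θ * r ≤ N * 2 := by
      have : θ * r * q ≤ N * 2 * q := by
        calc θ * r * q = (θ * q) * r := by ring
          _ = h * r := by rw [hθq]
          _ ≤ _ := by linarith
      exact le_of_mul_le_mul_right this (by linarith)
    linarith
  have hβ1 : (N : ℝ) - θ * r / 2 ≤ 1 - 1 / (2 * q) := by
    have h1 : (N : ℝ) - θ * r / 2 - 1 + 1 / (2 * q) = (N * (2 * q) + 1 - (θ * q) * r - 2 * q) / (2 * q) := by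
      field_simp
      ring
    have h2 : (N * (2 * q) + 1 - (θ * q) * r - 2 * q) / (2 * q) ≤ 0 := by
      apply div_nonpos_of_nonpos_of_nonneg _ (by positivity)
      rw [hθq]
      linarith
    linarith
  have hhalf : 1 / (2 * (q : ℝ)) = 1 / (4 * q) + 1 / (4 * q) := by field_simp; ring
  rcases Nat.eq_zero_or_pos L with h0 | h0
  · subst h0
    simp only [range_zero, sum_empty, norm_zero]
    positivity
  have hKL := kusmin_landau_anti ψ L (θ := θ * r / (30 * y x 0)) (by positivity)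
    (fun n hn => by
      rw [hinc]
      linarith [hlo n hn])
    (fun n hn => by
      rw [hinc]
      have h1 := hlo n hn
      have h2 := hup n
      linarith)
    (fun n hn => by
      have h1 := hinc (n + 1)
      rw [show n + 1 + 1 = n + 2 by ring] at h1
      rw [h1, hinc n]
      have h2 : ∑ i ∈ range r, g x (n + 1 + i) ≤ ∑ i ∈ range r, g x (n + i) := by
        apply Finset.sum_le_sum
        intro i _
        rw [show n + 1 + i = n + i + 1 by ring]
        exact g_anti hx _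
      have := mul_le_mul_of_nonneg_left h2 hθ0.le
      linarith)
  have hnorm : ‖∑ n ∈ range L, e (θ * (a x (n + r) - a x n))‖ = ‖∑ n ∈ range L, e (ψ n)‖ := by
    rw [← Complex.norm_conj (∑ n ∈ range L, e (θ * (a x (n + r) - a x n))), map_sum]
    congr 1
    refine sum_congr rfl fun n _ => ?_
    rw [conj_e, hψ]
    simp only
    rw [e_add, e_nat, mul_one]
  rw [hnorm]
  refine hKL.trans (le_of_eq ?_)
  rw [hθ]
  field_simp
  ring

/-- exponential sums along the orbit -/
theorem sum_sq {x : ℝ} (hx : 1 ≤ x) (q h L : ℕ) (hq : 1 ≤ q) (hh : 1 ≤ h) (hL0 : 1 ≤ L)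
    (hL : (L : ℝ) ≤ y x 0) (hhL : (h : ℝ) * L ≤ 2 * y x 0) :
    ‖∑ n ∈ range L, e ((h : ℝ) / q * a x n)‖ ^ 2 ≤ 2 * L + 240 * y x 0 * q * (1 + Real.log L) := by
  have hq0 : (1 : ℝ) ≤ q := by exact_mod_cast hq
  have hh0 : (1 : ℝ) ≤ h := by exact_mod_cast hh
  have hLr : (1 : ℝ) ≤ L := by exact_mod_cast hL0
  have hy0 := y_one hx 0
  have h1 := vdcH (fun n => e ((h : ℝ) / q * a x n)) (fun n => (norm_e _).le) L L
  have h2 : ∑ l ∈ Ico 1 L, ‖∑ n ∈ range (L - l), e ((h : ℝ) / q * a x (n + l)) *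
      (starRingEnd ℂ) (e ((h : ℝ) / q * a x n))‖ ≤ 60 * y x 0 * q * (1 + Real.log L) := by
    calc ∑ l ∈ Ico 1 L, ‖∑ n ∈ range (L - l), e ((h : ℝ) / q * a x (n + l)) *
        (starRingEnd ℂ) (e ((h : ℝ) / q * a x n))‖
        ≤ ∑ l ∈ Ico 1 L, 60 * y x 0 * q * (1 / l) := by
          apply Finset.sum_le_sum
          intro l hl
          obtain ⟨l1, l2⟩ := Finset.mem_Ico.1 hl
          have l1' : (1 : ℝ) ≤ l := by exact_mod_cast l1
          have l2' : (l : ℝ) ≤ L := by exact_mod_cast l2.le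
          have h3 := inner hx q h l (L - l) hq hh l1 (by
            rw [Nat.cast_sub l2.le]; linarith) ((mul_le_mul_of_nonneg_left l2' (by linarith)).trans hhL)
          have h4 : ∑ n ∈ range (L - l), e ((h : ℝ) / q * a x (n + l)) *
              (starRingEnd ℂ) (e ((h : ℝ) / q * a x n)) =
              ∑ n ∈ range (L - l), e ((h : ℝ) / q * (a x (n + l) - a x n)) := by
            refine sum_congr rfl fun n _ => ?_
            rw [conj_e, ← e_add]
            congr 1
            ring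
          rw [h4]
          refine h3.trans ?_
          rw [mul_one_div]
          apply div_le_div_of_nonneg_left (by positivity) (by linarith)
          nlinarith
      _ = 60 * y x 0 * q * ∑ l ∈ Ico 1 L, 1 / (l : ℝ) := by rw [Finset.mul_sum]
      _ ≤ _ := mul_le_mul_of_nonneg_left (harm_le L) (by positivity)
  have h3 : (L : ℝ) * ‖∑ n ∈ range L, e ((h : ℝ) / q * a x n)‖ ^ 2 ≤
      L * (2 * L + 240 * y x 0 * q * (1 + Real.log L)) := by
    refine h1.trans ?_
    calc ((L : ℝ) + L) * (L + 2 * _) ≤ ((L : ℝ) + L) * (L + 2 * (60 * y x 0 * q * (1 + Real.log L))) := by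
          gcongr
      _ = _ := by ring
  exact le_of_mul_le_mul_left h3 (by linarith)

end Pool.Agent.R529.Orb
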